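import Pool.Agent.BoxOrtho.Parts

namespace Pool.Agent.Results.MP_c1f1e9_gt.NotOrtho

open Pool.Agent.BoxOrtho

/-- The product of the Baire space with the countable box power of ω + 1 (here ℕ∞ with its order
topology) is not countably orthocompact, and neither is a certain subspace of the countable box
power of ω + 1. -/
theorem result :
    ¬ CountablyOrthocompact ((ℕ → ℕ) × Box (fun _ : ℕ => ℕ∞)) ∧
      ∃ S : Set (Box (fun _ : ℕ => ℕ∞)), ¬ CountablyOrthocompact S :=
  ⟨part1, Sset, part2⟩

end Pool.Agent.Results.MP_c1f1e9_gt.NotOrtho
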