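import Pool.Agent.BoxOrtho.Shrink

namespace Pool.Agent.Results.MP_c1f1e9_gt.NotSubpara

open Pool.Agent.BoxOrtho TopologicalSpace

/-- A box product of countably many metrizable spaces, the Baire space and countably many copies of
ω + 1 (here ℕ∞ with its order topology), that is neither metacompact nor subparacompact. -/
theorem result :
    ∃ (X : ℕ → Type) (_ : ∀ n, TopologicalSpace (X n)),
      (∀ n, MetrizableSpace (X n)) ∧ Nonempty (X 0 ≃ₜ (ℕ → ℕ)) ∧
      (∀ n, Nonempty (X (n + 1) ≃ₜ ℕ∞)) ∧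
      ¬ IsMetacompact (Box X) ∧ ¬ IsSubparacompact (Box X) :=
  ⟨Fac, facTop, facMetrizable, ⟨Homeomorph.refl (ℕ → ℕ)⟩, fun _ => ⟨Homeomorph.refl ℕ∞⟩,
    not_metacompact, not_subparacompact⟩

end Pool.Agent.Results.MP_c1f1e9_gt.NotSubpara
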